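import Pool.Agent.H93.CL.Rot

/-!
The number of Hurwitz integers of norm `22 n` with trace divisible by `11`.
-/

set_option autoImplicit false

namespace Pool.Agent.H93.CL

open Pool.Agent.CycSyl Pool.Agent.CycSyl.Hz Finset

/-- an element of norm 11 normalising the level 11 order -/
def w11 : Hz ℤ := ⟨1, 4, 0, -2⟩
/-- the element of norm 2 of the level 11 order -/
def pi2 : Hz ℤ := ⟨1, 1, 2, -2⟩

/-- nilpotent modulo 11 along the standard line -/
def Nil (x : Hz ℤ) : Prop := (11 : ℤ) ∣ x.c ∧ (11 : ℤ) ∣ x.b - 4 * x.a ∧ (11 : ℤ) ∣ x.d + 2 * x.a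
instance : DecidablePred Nil := fun _ => by unfold Nil; infer_instance

theorem InO_iff (x : Hz ℤ) : InO x ↔ (11 : ℤ) ∣ 2 * x.b + 3 * x.c + 4 * x.d := by
  have e : (11 : ℤ) ∣ 2 * x.b + 3 * x.c + 4 * x.d ↔
      ((2 * x.b + 3 * x.c + 4 * x.d : ℤ) : ZMod 11) = 0 := by
    rw [ZMod.intCast_zmod_eq_zero_iff_dvd]; rfl
  rw [e]
  unfold InO lf
  push_cast
  rfl

theorem w11_mul_w11 : w11 * w11 = sc (-11) := by decide
theorem nrm_w11 : nrm w11 = 11 := by decide
theorem nrm_pi2 : nrm pi2 = 2 := by decide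
theorem InO_pi2 : InO pi2 := by decide
theorem w11_ne : w11 ≠ 0 := by decide
theorem pi2_ne : pi2 ≠ 0 := by decide

theorem stepA (n : ℕ) : ((Z (22 * n)).filter Nil).card = ((Z (2 * n)).filter InO).card := by
  symm
  apply Finset.card_nbij (fun z => w11 * z)
  · intro z hz
    simp only [Finset.coe_filter, Set.mem_ofPred_eq, mem_Z] at hz ⊢
    obtain ⟨h1, h2⟩ := hz
    rw [InO_iff] at h2
    refine ⟨?_, ?_⟩
    · rw [nrm_mul, nrm_w11, h1]; push_cast; ring
    · simp only [Nil, w11, mul_a, mul_b, mul_c, mul_d]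
      omega
  · intro z _ z' _ h
    exact mul_left_cancel₀ w11_ne h
  · intro x hx
    simp only [Finset.coe_filter, Set.mem_ofPred_eq, mem_Z] at hx
    obtain ⟨h1, ⟨c', hc⟩, ⟨b', hb⟩, ⟨d', hd⟩⟩ := hx
    obtain ⟨z, hz⟩ : ∃ z : Hz ℤ, z = sc x.a - w11 * (⟨0, b', c', d'⟩ : Hz ℤ) := ⟨_, rfl⟩
    have hw : w11 * z = x := by
      rw [hz, mul_sub, ← mul_assoc, w11_mul_w11]
      ext
      · simp only [w11, sub_a, mul_a, sc_a, sc_b, sc_c, sc_d]; linarith
      · simp only [w11, sub_b, mul_b, sc_a, sc_b, sc_c, sc_d]; linarith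
      · simp only [w11, sub_c, mul_c, sc_a, sc_b, sc_c, sc_d]; linarith
      · simp only [w11, sub_d, mul_d, sc_a, sc_b, sc_c, sc_d]; linarith
    refine ⟨z, ?_, hw⟩
    simp only [Finset.coe_filter, Set.mem_ofPred_eq, mem_Z]
    refine ⟨?_, ?_⟩
    · have h2 := congrArg nrm hw
      rw [nrm_mul, nrm_w11, h1] at h2
      push_cast at h2 ⊢
      linarith
    · rw [InO_iff, hz]
      simp only [w11, sub_b, sub_c, sub_d, mul_b, mul_c, mul_d, sc_b, sc_c, sc_d]
      omega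

theorem parity {x : Hz ℤ} (h : (2 : ℤ) ∣ nrm x) : (2 : ℤ) ∣ x.d ∧ (2 : ℤ) ∣ x.a + x.b + x.c := by
  have key : ∀ a b c d : ZMod 2, a ^ 2 + b ^ 2 + c ^ 2 + d ^ 2 + d * (a + b + c) = 0 →
      d = 0 ∧ a + b + c = 0 := by decide
  have h1 : ((nrm x : ℤ) : ZMod 2) = 0 := by
    rw [ZMod.intCast_zmod_eq_zero_iff_dvd]; exact h
  unfold nrm at h1
  push_cast at h1
  obtain ⟨h2, h3⟩ := key _ _ _ _ h1
  constructor
  · have : ((x.d : ℤ) : ZMod 2) = 0 := h2
    rw [ZMod.intCast_zmod_eq_zero_iff_dvd] at this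
    exact this
  · have : ((x.a + x.b + x.c : ℤ) : ZMod 2) = 0 := by push_cast; exact h3
    rw [ZMod.intCast_zmod_eq_zero_iff_dvd] at this
    exact this

theorem stepB (n : ℕ) : ((Z (2 * n)).filter InO).card = ((Z n).filter InO).card := by
  symm
  apply Finset.card_nbij (fun z => pi2 * z)
  · intro z hz
    simp only [Finset.coe_filter, Set.mem_ofPred_eq, mem_Z] at hz ⊢
    obtain ⟨h1, h2⟩ := hz
    refine ⟨?_, InO_mul InO_pi2 h2⟩
    rw [nrm_mul, nrm_pi2, h1]; push_cast; ring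
  · intro z _ z' _ h
    exact mul_left_cancel₀ pi2_ne h
  · intro x hx
    simp only [Finset.coe_filter, Set.mem_ofPred_eq, mem_Z] at hx
    obtain ⟨h1, h2⟩ := hx
    obtain ⟨hd, ha⟩ := parity (x := x) (by rw [h1]; push_cast; exact dvd_mul_right _ _)
    have h3 : sc (2 : ℤ) ∣ conj pi2 * x := by
      rw [sc_dvd_iff]
      simp only [pi2, mul_a, mul_b, mul_c, mul_d, conj_a, conj_b, conj_c, conj_d]
      omega
    obtain ⟨z, hz⟩ := h3
    have hw : pi2 * z = x := by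
      apply sc_inj_mul (n := 2) (by norm_num)
      rw [← mul_assoc, sc_comm, mul_assoc, ← hz, ← mul_assoc, mul_conj, nrm_pi2]
    refine ⟨z, ?_, hw⟩
    simp only [Finset.coe_filter, Set.mem_ofPred_eq, mem_Z]
    refine ⟨?_, ?_⟩
    · have h2 := congrArg nrm hw
      rw [nrm_mul, nrm_pi2, h1] at h2
      push_cast at h2 ⊢
      linarith
    · apply InO_right InO_pi2 (by rw [nrm_pi2]; decide)
      rw [hw]; exact h2

theorem stepC {n : ℕ} (hn : ((n : ℤ) : ZMod 11) ≠ 0) :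
    ((Z n).filter InO).card = 2 * (X n).card := by
  classical
  have h1 : (Z n).filter InO = X n ∪ (X n).image (fun x => -x) := by
    ext x
    simp only [Finset.mem_filter, mem_Z, Finset.mem_union, Finset.mem_image, mem_X]
    constructor
    · rintro ⟨h1, h2⟩
      rcases OP_or h2 (by rw [h1]; exact hn) with h | h
      · exact Or.inl ⟨h, h1⟩
      · exact Or.inr ⟨-x, ⟨h, by rw [nrm_neg, h1]⟩, neg_neg x⟩
    · rintro (⟨h1, h2⟩ | ⟨y, ⟨h1, h2⟩, rfl⟩)
      · exact ⟨h2, h1.1⟩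
      · exact ⟨by rw [nrm_neg, h2], InO_neg h1.1⟩
  rw [h1, Finset.card_union_of_disjoint, Finset.card_image_of_injective _ neg_injective]
  · ring
  · rw [Finset.disjoint_left]
    intro x hx hx'
    rw [Finset.mem_image] at hx'
    obtain ⟨y, hy, rfl⟩ := hx'
    exact OP_not_neg (mem_X.1 hy).1 (mem_X.1 hx).1

/-- representatives of the units -/
def U12L : List (Hz ℤ) := [⟨1, 0, 0, 0⟩, ⟨0, 1, 0, 0⟩, ⟨1, 1, 1, -2⟩, ⟨0, 1, 0, -1⟩,
  ⟨0, 0, 1, -1⟩, ⟨0, 0, 0, 1⟩, ⟨1, 1, 1, -1⟩, ⟨1, 0, 1, -1⟩, ⟨1, 0, 0, -1⟩, ⟨0, 1, 1, -1⟩,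
  ⟨1, 1, 0, -1⟩, ⟨0, 0, 1, 0⟩]

theorem nodup_U12L : U12L.Nodup := by decide

/-- representatives of the units -/
def U12 : Finset (Hz ℤ) := U12L.toFinset

theorem card_U12 : U12.card = 12 := by
  unfold U12
  rw [List.toFinset_card_of_nodup nodup_U12L]
  rfl

theorem nrm_U12 {u : Hz ℤ} (hu : u ∈ U12) : nrm u = 1 := by
  have key : ∀ u ∈ U12L, nrm u = 1 := by decide
  exact key u (List.mem_toFinset.1 hu)

/-- the condition modulo 11 -/
def NilM (x : Hz (ZMod 11)) : Prop := x.c = 0 ∧ x.b = 4 * x.a ∧ x.d = -2 * x.a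
instance : DecidablePred NilM := fun _ => by unfold NilM; infer_instance

theorem Nil_iff (x : Hz ℤ) : Nil x ↔ NilM (Hz.map (Int.castRingHom (ZMod 11)) x) := by
  unfold Nil NilM
  simp only [map_a, map_b, map_c, map_d, eq_intCast]
  have e : ∀ k : ℤ, (11 : ℤ) ∣ k ↔ ((k : ℤ) : ZMod 11) = 0 := fun k => by
    rw [ZMod.intCast_zmod_eq_zero_iff_dvd]; rfl
  rw [e, e, e]
  push_cast
  constructor
  · rintro ⟨h1, h2, h3⟩
    exact ⟨h1, by linear_combination h2, by linear_combination h3⟩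
  · rintro ⟨h1, h2, h3⟩
    exact ⟨h1, by linear_combination h2, by linear_combination h3⟩

/-- the units modulo 11 -/
def U12m : List (Hz (ZMod 11)) := [⟨1, 0, 0, 0⟩, ⟨0, 1, 0, 0⟩, ⟨1, 1, 1, 9⟩, ⟨0, 1, 0, 10⟩,
  ⟨0, 0, 1, 10⟩, ⟨0, 0, 0, 1⟩, ⟨1, 1, 1, 10⟩, ⟨1, 0, 1, 10⟩, ⟨1, 0, 0, 10⟩, ⟨0, 1, 1, 10⟩,
  ⟨1, 1, 0, 10⟩, ⟨0, 0, 1, 0⟩]

set_option maxRecDepth 100000 in
theorem key12 : ∀ a b c : ZMod 11, ¬ (a = 0 ∧ b = 0 ∧ c = 0) →
    a ^ 2 + b ^ 2 + c ^ 2 + (-2 * a) ^ 2 + (-2 * a) * (a + b + c) = 0 →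
    U12m.countP (fun u => decide (NilM (conj u * ⟨a, b, c, -2 * a⟩ * u))) = 1 := by
  decide +kernel

theorem U12m_eq : U12L.map (Hz.map (Int.castRingHom (ZMod 11))) = U12m := by decide

theorem card_units {n : ℕ} (hn : ¬ 11 ∣ n) {x : Hz ℤ} (hx : nrm x = ((22 * n : ℕ) : ℤ))
    (ht : (11 : ℤ) ∣ tr x) : (U12.filter (fun u => Nil (conj u * x * u))).card = 1 := by
  have e : ∀ k : ℤ, (11 : ℤ) ∣ k ↔ ((k : ℤ) : ZMod 11) = 0 := fun k => by
    rw [ZMod.intCast_zmod_eq_zero_iff_dvd]; rfl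
  have h11 : (11 : ZMod 11) = 0 := by decide
  have hd : (x.d : ZMod 11) = -2 * (x.a : ZMod 11) := by
    have h1 := (e _).1 ht
    unfold tr at h1
    push_cast at h1
    linear_combination h1
  have hne : ¬ ((x.a : ZMod 11) = 0 ∧ (x.b : ZMod 11) = 0 ∧ (x.c : ZMod 11) = 0) := by
    rintro ⟨ha, hb, hc⟩
    have hd' : (x.d : ZMod 11) = 0 := by rw [hd, ha, mul_zero]
    have h1 : sc (11 : ℤ) ∣ x := by
      rw [sc_dvd_iff]
      exact ⟨(e _).2 ha, (e _).2 hb, (e _).2 hc, (e _).2 hd'⟩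
    have h2 := sc_dvd_nrm h1
    rw [hx] at h2
    push_cast at h2
    omega
  have hN : (x.a : ZMod 11) ^ 2 + (x.b : ZMod 11) ^ 2 + (x.c : ZMod 11) ^ 2 +
      (-2 * (x.a : ZMod 11)) ^ 2 + (-2 * (x.a : ZMod 11)) *
        ((x.a : ZMod 11) + (x.b : ZMod 11) + (x.c : ZMod 11)) = 0 := by
    rw [← hd]
    have h1 : ((nrm x : ℤ) : ZMod 11) = 0 := by
      rw [hx]
      push_cast
      linear_combination (2 * (n : ZMod 11)) * h11
    unfold nrm at h1
    push_cast at h1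
    exact h1
  have key := key12 _ _ _ hne hN
  rw [← U12m_eq, List.countP_map] at key
  have hxm : Hz.map (Int.castRingHom (ZMod 11)) x =
      ⟨(x.a : ZMod 11), (x.b : ZMod 11), (x.c : ZMod 11), -2 * (x.a : ZMod 11)⟩ := by
    rw [← hd]; rfl
  have hf : U12.filter (fun u => Nil (conj u * x * u)) =
      (U12L.filter (fun u => decide (Nil (conj u * x * u)))).toFinset := by
    unfold U12
    ext u
    simp
  rw [hf, List.toFinset_card_of_nodup (nodup_U12L.filter _),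
    ← List.countP_eq_length_filter, ← key]
  congr 1
  ext u
  simp only [Function.comp_apply]
  rw [decide_eq_decide, ← hxm, conj_map, ← map_mul, ← map_mul, ← Nil_iff]

theorem stepD {n : ℕ} (hn : ¬ 11 ∣ n) :
    C (fun x => (11 : ℤ) ∣ tr x) (22 * n) = 12 * (((Z (22 * n)).filter Nil).card : ℤ) := by
  classical
  rw [C_def]
  have h1 : (((Z (22 * n)).filter (fun x => (11 : ℤ) ∣ tr x)).card) =
      ∑ x ∈ (Z (22 * n)).filter (fun x => (11 : ℤ) ∣ tr x),
        (U12.filter (fun u => Nil (conj u * x * u))).card := by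
    rw [Finset.card_eq_sum_ones]
    apply Finset.sum_congr rfl
    intro x hx
    rw [Finset.mem_filter, mem_Z] at hx
    rw [card_units hn hx.1 hx.2]
  have h2 : ∑ x ∈ (Z (22 * n)).filter (fun x => (11 : ℤ) ∣ tr x),
        (U12.filter (fun u => Nil (conj u * x * u))).card =
      ∑ u ∈ U12, (((Z (22 * n)).filter (fun x => (11 : ℤ) ∣ tr x)).filter
        (fun x => Nil (conj u * x * u))).card := by
    simp only [Finset.card_eq_sum_ones, Finset.sum_filter (p := fun x => Nil _)]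
    rw [Finset.sum_comm]
  have h3 : ∀ u ∈ U12, (((Z (22 * n)).filter (fun x => (11 : ℤ) ∣ tr x)).filter
        (fun x => Nil (conj u * x * u))).card = ((Z (22 * n)).filter Nil).card := by
    intro u hu
    have hu1 := nrm_U12 hu
    have huc : u * conj u = 1 := by rw [mul_conj, hu1, map_one]
    have hcu : conj u * u = 1 := by rw [conj_mul_self, hu1, map_one]
    apply Finset.card_nbij' (fun x => conj u * x * u) (fun y => u * y * conj u)
    · intro x hx
      simp only [Finset.coe_filter, Set.mem_ofPred_eq, Finset.mem_filter, mem_Z] at hx ⊢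
      refine ⟨?_, hx.2⟩
      rw [nrm_mul, nrm_mul, nrm_conj, hu1, one_mul, mul_one]; exact hx.1.1
    · intro y hy
      simp only [Finset.coe_filter, Set.mem_ofPred_eq, Finset.mem_filter, mem_Z] at hy ⊢
      obtain ⟨hy1, hy2⟩ := hy
      refine ⟨⟨?_, ?_⟩, ?_⟩
      · rw [nrm_mul, nrm_mul, nrm_conj, hu1, one_mul, mul_one]; exact hy1
      · rw [tr_mul_comm, ← mul_assoc, hcu, one_mul]
        obtain ⟨h1, h2, h3⟩ := hy2
        unfold tr
        omega
      · have : conj u * (u * y * conj u) * u = y := by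
          rw [mul_assoc u, ← mul_assoc (conj u), hcu, one_mul, mul_assoc, hcu, mul_one]
        rw [this]; exact hy2
    · intro x _
      show u * (conj u * x * u) * conj u = x
      rw [mul_assoc (conj u), ← mul_assoc u, huc, one_mul, mul_assoc, huc, mul_one]
    · intro y _
      show conj u * (u * y * conj u) * u = y
      rw [mul_assoc u, ← mul_assoc (conj u), hcu, one_mul, mul_assoc, hcu, mul_one]
  rw [h1, h2, Finset.sum_congr rfl h3, Finset.sum_const, card_U12, smul_eq_mul]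
  push_cast
  ring

/-- the count -/
theorem C_eq {n : ℕ} (hn : ¬ 11 ∣ n) :
    C (fun x => (11 : ℤ) ∣ tr x) (22 * n) = 24 * ((X n).card : ℤ) := by
  have h1 : ((n : ℤ) : ZMod 11) ≠ 0 := by
    rw [Int.cast_natCast, Ne, ZMod.natCast_eq_zero_iff]; exact hn
  rw [stepD hn, stepA, stepB, stepC h1]
  push_cast
  ring

end Pool.Agent.H93.CL
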