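import Pool.Agent.CycSyl.Power

/-!
A class of order `p` without labels.
-/

set_option autoImplicit false

namespace Pool.Agent.H93.CL

open Pool.Agent.CycSyl Pool.Agent.CycSyl.Hz

section

variable {O : Type*} [CommRing O] [IsDedekindDomain O] {t m : ℤ} (D : QData O t m)

include D in
/-- the norm form is nonnegative and dominates the trace -/
theorem tr_sq_le_nrm (hneg : t ^ 2 < 4 * m) {w : O} {T N : ℤ} (hT : w + D.σ w = (T : O))
    (hN : w * D.σ w = (N : O)) : T ^ 2 ≤ 4 * N := by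
  obtain ⟨a, b, hab⟩ := D.span w
  obtain ⟨F0, hF0⟩ : ∃ F0 : ℤ, F0 = t ^ 2 - 4 * m := ⟨_, rfl⟩
  rw [← hF0] at hab
  have hab' : (F0 : O) * D.σ w = (a : O) + (b : O) * ((t : O) - D.θ) := by
    have := congrArg D.σ hab
    rw [map_mul, map_add, map_mul, D.hσ, map_intCast, map_intCast, map_intCast] at this
    exact this
  have hF0O : (F0 : O) = (t : O) ^ 2 - 4 * m := by rw [hF0]; push_cast; ring
  have h2 : F0 ^ 2 * (T ^ 2 - 4 * N) = b ^ 2 * F0 := by
    apply D.int_inj
    push_cast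
    rw [← hT, ← hN]
    have e1 : (F0 : O) * (w - D.σ w) = b * (2 * D.θ - t) := by
      linear_combination hab - hab'
    have e2 : (2 * D.θ - (t : O)) * (2 * D.θ - t) = F0 := by
      rw [hF0O]; linear_combination 4 * D.hθ
    have e3 : ((F0 : O) * (w - D.σ w)) * ((F0 : O) * (w - D.σ w)) =
        b ^ 2 * F0 := by
      rw [e1, ← e2]; ring
    linear_combination e3
  have hF0neg : F0 < 0 := by rw [hF0]; linarith
  have h3 : F0 * (T ^ 2 - 4 * N) = b ^ 2 := by
    have : F0 * (F0 * (T ^ 2 - 4 * N)) = F0 * b ^ 2 := by linear_combination h2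
    exact mul_left_cancel₀ hF0neg.ne this
  nlinarith [sq_nonneg b]

theorem p_sq_mod {p : ℕ} (hp : p.Prime) (hp5 : 5 ≤ p) : ∃ k, p * p = 12 * k + 1 := by
  have h2 : p % 2 ≠ 0 := by
    intro h
    have := (Nat.prime_dvd_prime_iff_eq Nat.prime_two hp).1 (Nat.dvd_of_mod_eq_zero h)
    omega
  have h3 : p % 3 ≠ 0 := by
    intro h
    have := (Nat.prime_dvd_prime_iff_eq Nat.prime_three hp).1 (Nat.dvd_of_mod_eq_zero h)
    omega
  have h4 : p % 12 = 1 ∨ p % 12 = 5 ∨ p % 12 = 7 ∨ p % 12 = 11 := by omega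
  have h5 : p * p % 12 = 1 := by
    rcases h4 with h | h | h | h <;> rw [Nat.mul_mod, h]
  exact ⟨p * p / 12, by omega⟩

include D in
/-- the power theorem, archimedean form -/
theorem exists_order_p {p : ℕ} (hp : p.Prime) (hp5 : 5 ≤ p) {ρ g t1 : ℤ} (hρ : 0 < ρ)
    (hg : 1 < g) (hρg : 4 * g < ρ) (hsq : ∀ k : ℤ, ρ ∣ k ^ 2 → ρ ∣ k)
    (hm : m = ρ * g ^ p) (ht : t = ρ * t1) (hcop : IsCoprime t g) (hneg : t ^ 2 < 4 * m) :
    ∃ C : ClassGroup O, orderOf C = p := by
  have hp0 : p ≠ 0 := hp.ne_zero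
  have hρO : (ρ : O) ≠ 0 := D.int_ne hρ.ne'
  obtain ⟨η, hη⟩ : ∃ η : O, η = (t1 : O) * D.θ - (g : O) ^ p := ⟨_, rfl⟩
  have htO : (t : O) = (ρ : O) * t1 := by
    have := congrArg (Int.cast : ℤ → O) ht
    push_cast at this; exact this
  have hmO : (m : O) = (ρ : O) * (g : O) ^ p := by
    have := congrArg (Int.cast : ℤ → O) hm
    push_cast at this; exact this
  have h1 : (ρ : O) * η = D.θ * D.θ := by
    rw [hη, D.hθ]
    linear_combination hmO - D.θ * htO
  have hσθ : D.θ * D.σ D.θ = (m : O) := by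
    rw [D.hσ]; linear_combination -D.hθ
  have h1' : (ρ : O) * D.σ η = D.σ D.θ * D.σ D.θ := by
    have := congrArg D.σ h1
    rwa [map_mul, map_mul, map_intCast] at this
  have h2 : η * D.σ η = ((g : O) ^ 2) ^ p := by
    apply mul_left_cancel₀ (mul_ne_zero hρO hρO)
    have e1 : (ρ : O) * ρ * (η * D.σ η) = (D.θ * D.σ D.θ) * (D.θ * D.σ D.θ) := by
      linear_combination (D.σ η * ρ) * h1 + (D.θ * D.θ) * h1'
    rw [e1, hσθ, hmO]; ring
  have h3 : η + D.σ η = ((t1 * t - 2 * g ^ p : ℤ) : O) := by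
    rw [hη, map_sub, map_mul, map_pow, map_intCast, map_intCast, D.hσ]
    push_cast; ring
  have hcop1 : IsCoprime (t1 * t - 2 * g ^ p) ((g ^ 2) ^ p) := by
    apply IsCoprime.pow_right
    apply IsCoprime.pow_right
    have ha : IsCoprime (t1 * t) g := by
      apply IsCoprime.mul_left _ hcop
      apply hcop.of_isCoprime_of_dvd_left
      exact ⟨ρ, by rw [ht]; ring⟩
    have hb : t1 * t - 2 * g ^ p = t1 * t + g * (-2 * g ^ (p - 1)) := by
      obtain ⟨k, hk⟩ := Nat.exists_eq_succ_of_ne_zero hp0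
      rw [hk]
      simp only [Nat.succ_eq_add_one, Nat.add_sub_cancel]
      ring
    rw [hb]
    exact ha.add_mul_left_left _
  have hcopO : IsCoprime (Ideal.span {η}) (Ideal.span {D.σ η}) := by
    rw [Ideal.isCoprime_span_singleton_iff]
    obtain ⟨A, B, hAB⟩ := hcop1
    have h4 := congrArg (Int.cast : ℤ → O) hAB
    rw [Int.cast_add, Int.cast_mul, ← h3, Int.cast_mul] at h4
    have h5 : (((g ^ 2) ^ p : ℤ) : O) = η * D.σ η := by rw [h2]; push_cast; ring
    rw [h5, Int.cast_one] at h4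
    exact ⟨(A : O) + (B : O) * D.σ η, (A : O), by linear_combination h4⟩
  have h6 : Ideal.span {η} * Ideal.span {D.σ η} = (Ideal.span {(g : O) ^ 2}) ^ p := by
    rw [Ideal.span_singleton_mul_span_singleton, h2, Ideal.span_singleton_pow]
  obtain ⟨A, hA⟩ := exists_eq_pow_of_mul_eq_pow_of_coprime hcopO h6
  have hθ0 : D.θ ≠ 0 := by
    intro h0
    have := D.indep 0 1 (by rw [h0]; simp)
    exact one_ne_zero this.2
  have hη0 : η ≠ 0 := by
    intro h0
    rw [h0, mul_zero] at h1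
    exact hθ0 (mul_self_eq_zero.1 h1.symm)
  have hA0 : A ≠ 0 := by
    rintro rfl
    rw [zero_pow hp0] at hA
    exact hη0 (Ideal.span_singleton_eq_bot.1 hA)
  have hAm : A ∈ nonZeroDivisors (Ideal O) := mem_nonZeroDivisors_iff_ne_zero.2 hA0
  refine ⟨ClassGroup.mk0 ⟨A, hAm⟩, ?_⟩
  have : Fact p.Prime := ⟨hp⟩
  apply orderOf_eq_prime
  · rw [← map_pow]
    have e2 : (⟨A, hAm⟩ : nonZeroDivisors (Ideal O)) ^ p =
        ⟨A ^ p, pow_mem hAm _⟩ := rfl
    rw [e2, ClassGroup.mk0_eq_one_iff, ← hA]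
    exact ⟨η, rfl⟩
  · intro h7
    rw [ClassGroup.mk0_eq_one_iff] at h7
    obtain ⟨γ0, hγ0⟩ := h7
    have h8 : Ideal.span {η} = Ideal.span {γ0 ^ p} := by
      rw [hA, hγ0, ← Ideal.span_singleton_pow]
    rw [Ideal.span_singleton_eq_span_singleton] at h8
    obtain ⟨u, hu⟩ := h8
    -- make the unit a `p`-th power
    obtain ⟨γ, hγ⟩ : ∃ γ : O, η = γ ^ p := by
      obtain ⟨k, hk⟩ := p_sq_mod hp hp5
      have hu12 : u ^ 12 = 1 := by
        apply Units.ext
        rw [Units.val_pow_eq_pow_val, Units.val_one]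
        exact (D.unit_pow hneg u.isUnit).1
      have hup : (u ^ p) ^ p = u := by
        rw [← pow_mul, hk, pow_succ, pow_mul, hu12, one_pow, one_mul]
      refine ⟨γ0 * ((u ^ p)⁻¹ : Oˣ), ?_⟩
      rw [mul_pow, ← hu, ← Units.val_pow_eq_pow_val, inv_pow, hup, mul_assoc, Units.mul_inv,
        mul_one]
    have hodd : Odd p := hp.odd_of_ne_two (by omega)
    obtain ⟨q, hq⟩ := hodd
    have hγ00 : γ ≠ 0 := by
      rintro rfl
      rw [zero_pow hp0] at hγ
      exact hη0 hγ
    have h9 : γ ^ q ∣ D.θ := by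
      rw [← IsIntegrallyClosed.pow_dvd_pow_iff (n := 2) (by norm_num)]
      refine ⟨(ρ : O) * γ, ?_⟩
      rw [sq D.θ, ← h1, hγ, hq]; ring
    obtain ⟨y, hy⟩ := h9
    have hyy : y * y = (ρ : O) * γ := by
      apply mul_left_cancel₀ (mul_ne_zero (pow_ne_zero q hγ00) (pow_ne_zero q hγ00))
      have e1 : γ ^ q * γ ^ q * (y * y) = (γ ^ q * y) * (γ ^ q * y) := by ring
      rw [e1, ← hy, ← h1, hγ, hq]; ring
    obtain ⟨n', hn'⟩ := D.nrmInt γ
    obtain ⟨τ, hτ⟩ := D.trInt γ
    obtain ⟨N, hN⟩ := D.nrmInt y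
    obtain ⟨T, hT⟩ := D.trInt y
    have e3 : n' = g ^ 2 := by
      have e4 : n' ^ p = (g ^ 2) ^ p := by
        apply D.int_inj
        push_cast
        rw [← hn', ← h2, hγ, mul_pow, map_pow]
      exact (hp.odd_of_ne_two (by omega)).strictMono_pow.injective e4
    have hσy : D.σ y * D.σ y = (ρ : O) * D.σ γ := by
      have := congrArg D.σ hyy
      rwa [map_mul, map_mul, map_intCast] at this
    have hT2 := tr_sq_le_nrm D hneg hT hN
    have e5 : N = ρ * g := by
      have e6 : N ^ 2 = (ρ * g) ^ 2 := by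
        apply D.int_inj
        push_cast
        rw [← hN]
        have e7 : (y * D.σ y) ^ 2 = (y * y) * (D.σ y * D.σ y) := by ring
        rw [e7, hyy, hσy]
        rw [e3] at hn'
        push_cast at hn'
        linear_combination (ρ : O) ^ 2 * hn'
      have hN0 : 0 ≤ N := by nlinarith [sq_nonneg T]
      exact (sq_eq_sq₀ hN0 (by positivity)).1 e6
    have e8 : T ^ 2 = ρ * (τ + 2 * g) := by
      apply D.int_inj
      push_cast
      rw [← hT]
      rw [e5] at hN
      push_cast at hN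
      linear_combination hyy + hσy + (ρ : O) * hτ + 2 * hN
    obtain ⟨k, hk⟩ := hsq T ⟨_, e8⟩
    have e9 : k = 0 := by
      have e10 : ρ ^ 2 * k ^ 2 < ρ ^ 2 * 1 := by
        have : T ^ 2 = ρ ^ 2 * k ^ 2 := by rw [hk]; ring
        rw [← this]
        nlinarith
      have e11 : k ^ 2 < 1 := lt_of_mul_lt_mul_left e10 (by positivity)
      have : k ^ 2 = 0 := by
        have := sq_nonneg k
        omega
      exact pow_eq_zero_iff (two_ne_zero) |>.1 this
    have e12 : τ = -2 * g := by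
      rw [hk, e9] at e8
      have : ρ * (τ + 2 * g) = ρ * 0 := by rw [← e8]; ring
      have := mul_left_cancel₀ hρ.ne' this
      linarith
    have e13 : γ = -(g : O) := by
      have e14 : (γ + g) * (γ + g) = 0 := by
        rw [e12] at hτ
        rw [e3] at hn'
        push_cast at hτ hn'
        linear_combination γ * hτ - hn'
      exact eq_neg_of_add_eq_zero_left (mul_self_eq_zero.1 e14)
    have e15 : (t1 : O) * D.θ = 0 := by
      have e16 : η = -(g : O) ^ p := by
        rw [hγ, e13, (hp.odd_of_ne_two (by omega)).neg_pow]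
      rw [e16] at hη
      linear_combination -hη
    have e17 : t1 = 0 := by
      have := D.indep 0 t1 (by rw [Int.cast_zero, zero_add]; exact e15)
      exact this.2
    rw [ht, e17, mul_zero] at hcop
    have := isCoprime_zero_left.1 hcop
    rw [Int.isUnit_iff] at this
    omega

end

end Pool.Agent.H93.CL
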