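import Pool.Agent.H93.CL.Tot
import Pool.Agent.H93.CL.Pow
import Pool.Agent.CycSyl.Final

/-!
Assembly.
-/

set_option autoImplicit false

namespace Pool.Agent.H93.CL

open Pool.Agent.CycSyl Pool.Agent.CycSyl.Hz Finset NumberField

/-- trace classes are admissible sets -/
theorem eset_t (t : ℤ) (n : ℕ) : ESet ((Z n).filter (fun x => tr x = t)) t n where
  tr x hx := (Finset.mem_filter.1 hx).2
  nrm x hx := mem_Z.1 (Finset.mem_filter.1 hx).1
  cl x hx β x' hβ hβ22 h := by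
    rw [Finset.mem_filter, mem_Z] at hx ⊢
    obtain ⟨hn, ht⟩ := hx
    have hβn0 : nrm β ≠ 0 := by
      intro h0; rw [h0] at hβ22
      have := hβ22.isUnit_of_dvd' (dvd_zero (22 : ℤ)) dvd_rfl
      rw [Int.isUnit_iff] at this; omega
    refine ⟨?_, ?_⟩
    · have h1 := congrArg nrm h
      rw [nrm_mul, nrm_mul, hn, mul_comm] at h1
      exact (mul_right_cancel₀ hβn0 h1).symm
    · have h1 : x' * sc (nrm β) = β * x * conj β := by rw [h, mul_assoc, mul_conj]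
      have h2 := congrArg tr h1
      rw [← sc_comm, tr_sc_mul, tr_mul_comm, ← mul_assoc, conj_mul_self, tr_sc_mul, ht] at h2
      exact mul_left_cancel₀ hβn0 h2

theorem disc_lt' {s k : ℕ} (hs : s = 3 ∨ s = 5) {x : Hz ℤ}
    (hx : nrm x = ((s ^ k * 22 : ℕ) : ℤ)) : tr x ^ 2 < 4 * ((s ^ k * 22 : ℕ) : ℤ) := by
  have h1 := tr_sq_le x
  rw [hx] at h1
  rcases lt_or_eq_of_le h1 with h | h
  · exact h
  · exfalso
    have h2 : (11 : ℤ) ∣ tr x ^ 2 := by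
      rw [h]; push_cast; exact ⟨4 * s ^ k * 2, by ring⟩
    have h3 : (11 : ℤ) ∣ tr x := Int.Prime.dvd_pow' (by norm_num) h2
    obtain ⟨j, hj⟩ := h3
    rw [hj] at h
    push_cast at h
    have h4 : (11 : ℤ) ∣ (s : ℤ) ^ k := by
      have h5 : (11 : ℤ) ∣ 8 * (s : ℤ) ^ k := ⟨j ^ 2, by linarith⟩
      have h6 : IsCoprime (11 : ℤ) 8 := by decide
      exact h6.dvd_of_dvd_mul_left h5
    have h7 : (11 : ℤ) ∣ (s : ℤ) := Int.Prime.dvd_pow' (by norm_num) h4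
    rcases hs with rfl | rfl <;> revert h7 <;> decide

theorem main_step {p : ℕ} (hp : p.Prime) (hp5 : 5 ≤ p) {s : ℕ} (hs : s = 3 ∨ s = 5)
    (hW : ¬ (p : ℤ) ^ 2 ∣ (s : ℤ) ^ p - s) :
    ∃ x : Hz ℤ, nrm x = ((s ^ p * 22 : ℕ) : ℤ) ∧ (11 : ℤ) ∣ tr x ∧ ¬ (s : ℤ) ∣ tr x ∧
      ¬ p ^ 2 ∣ Nat.card (ClassGroup (𝓞 (Kf (tr x) ((s ^ p * 22 : ℕ) : ℤ)))) := by
  classical
  by_contra hcon
  push Not at hcon
  apply hW
  obtain ⟨j, hj⟩ : ∃ j, p = 2 * j + 3 := by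
    obtain ⟨j, hj⟩ := hp.odd_of_ne_two (by omega)
    exact ⟨j - 1, by omega⟩
  have hc := count hs j
  rw [← hj, C_def] at hc
  have hdvd : p ^ 2 ∣ ((Z (s ^ p * 22)).filter
      (fun x => (11 : ℤ) ∣ tr x ∧ ¬ (s : ℤ) ∣ tr x)).card := by
    rw [Finset.card_eq_sum_card_image (fun x => tr x)]
    apply Finset.dvd_sum
    intro t ht
    obtain ⟨x, hx, hxt⟩ := Finset.mem_image.1 ht
    rw [Finset.mem_filter, mem_Z] at hx
    obtain ⟨hx1, hx2, hx3⟩ := hx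
    have hxt' : tr x = t := hxt
    have h1 := hcon x hx1 hx2 hx3
    have hlt := disc_lt' hs hx1
    rw [hxt'] at h1 hlt hx2 hx3
    have := Kf_numberField hlt
    have h2 := (qdata hlt).card_dvd (eset_t t (s ^ p * 22))
    have h3 : ((Z (s ^ p * 22)).filter
      (fun x => (11 : ℤ) ∣ tr x ∧ ¬ (s : ℤ) ∣ tr x)).filter (fun x => tr x = t) =
        (Z (s ^ p * 22)).filter (fun x => tr x = t) := by
      ext y
      simp only [Finset.mem_filter]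
      constructor
      · rintro ⟨⟨h4, _⟩, h6⟩; exact ⟨h4, h6⟩
      · rintro ⟨h4, h6⟩; exact ⟨⟨h4, by rw [h6]; exact ⟨hx2, hx3⟩⟩, h6⟩
    rw [h3]
    exact h1.trans h2
  have h4 : (p : ℤ) ^ 2 ∣ 24 * ((s : ℤ) ^ p - s) := by
    rw [← hc]; exact_mod_cast hdvd
  have h5 : IsCoprime ((p : ℤ) ^ 2) 24 := by
    apply IsCoprime.pow_left
    have h6 : p.Coprime 24 := by
      rw [Nat.Prime.coprime_iff_not_dvd hp]
      intro h7
      have h8 : p ∣ 2 ^ 3 * 3 := by norm_num; exact h7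
      rcases hp.dvd_mul.1 h8 with h9 | h9
      · have := (Nat.prime_dvd_prime_iff_eq hp Nat.prime_two).1 (hp.dvd_of_dvd_pow h9)
        omega
      · have := (Nat.prime_dvd_prime_iff_eq hp Nat.prime_three).1 h9
        omega
    exact_mod_cast Nat.isCoprime_iff_coprime.2 h6
  exact h5.dvd_of_dvd_mul_left h4

theorem main {p : ℕ} (hp : p.Prime) (hp5 : 5 ≤ p) {s : ℕ} (hs : s = 3 ∨ s = 5)
    (hW : ¬ (p : ℤ) ^ 2 ∣ (s : ℤ) ^ p - s) :
    ∃ K : IntermediateField ℚ ℂ, ∃ _ : NumberField K, Module.finrank ℚ K = 2 ∧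
      (∃ n : ℕ, 0 < n ∧ n < 88 * s ^ p ∧ ∃ x : K, (x : ℂ) ^ 2 = -(n : ℂ)) ∧
      Nonempty (↥(Subgroup.closure
        {g : ClassGroup (𝓞 K) | ∃ n : ℕ, g ^ (p ^ n) = 1}) ≃* Multiplicative (ZMod p)) := by
  obtain ⟨x, hx1, hx2, hx3, hx4⟩ := main_step hp hp5 hs hW
  have hlt := disc_lt' hs hx1
  have hnf := Kf_numberField hlt
  have hfact : Fact p.Prime := ⟨hp⟩
  have hsp : s.Prime := by rcases hs with rfl | rfl <;> norm_num
  have hs5 : (s : ℤ) ≤ 5 := by rcases hs with rfl | rfl <;> norm_num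
  have hs1 : (1 : ℤ) < s := by rcases hs with rfl | rfl <;> norm_num
  have h2 : (2 : ℤ) ∣ tr x := two_dvd_tr (by rw [hx1]; push_cast; exact ⟨s ^ p * 11, by ring⟩)
  obtain ⟨t1, ht1⟩ : (22 : ℤ) ∣ tr x := by omega
  have hcop : IsCoprime (tr x) (s : ℤ) :=
    (((Nat.prime_iff_prime_int.1 hsp).coprime_iff_not_dvd).2 hx3).symm
  obtain ⟨C, hC⟩ := exists_order_p (qdata hlt) hp hp5 (ρ := 22) (g := (s : ℤ)) (t1 := t1)
    (by norm_num) hs1 (by linarith) (by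
      intro k hk
      have h3 : (2 : ℤ) ∣ k := Int.Prime.dvd_pow' (n := k) (k := 2) (by norm_num)
        (dvd_trans ⟨11, by norm_num⟩ hk)
      have h4 : (11 : ℤ) ∣ k := Int.Prime.dvd_pow' (n := k) (k := 2) (by norm_num)
        (dvd_trans ⟨2, by norm_num⟩ hk)
      omega) (by push_cast; ring) ht1 hcop hlt
  refine ⟨Kf (tr x) ((s ^ p * 22 : ℕ) : ℤ), hnf, Kf_finrank hlt, ?_, ?_⟩
  · obtain ⟨n, hn⟩ := Int.eq_ofNat_of_zero_le
      (show (0 : ℤ) ≤ 4 * ((s ^ p * 22 : ℕ) : ℤ) - tr x ^ 2 by linarith)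
    have ht0 : tr x ≠ 0 := by
      intro h; apply hx3; rw [h]; exact dvd_zero _
    have ht2 : 0 < tr x ^ 2 := by positivity
    refine ⟨n, ?_, ?_, ⟨2 * th (tr x) ((s ^ p * 22 : ℕ) : ℤ) - ((tr x : ℤ) : ℂ), ?_⟩, ?_⟩
    · have : (0 : ℤ) < (n : ℤ) := by rw [← hn]; linarith
      exact_mod_cast this
    · have h5 : (n : ℤ) < 88 * (s : ℤ) ^ p := by
        rw [← hn]; push_cast; linarith
      exact_mod_cast h5
    · apply sub_mem
      · apply mul_mem _ th_mem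
        have := intCast_mem (Kf (tr x) ((s ^ p * 22 : ℕ) : ℤ)) 2
        simpa using this
      · exact intCast_mem _ _
    · show (2 * th (tr x) ((s ^ p * 22 : ℕ) : ℤ) - ((tr x : ℤ) : ℂ)) ^ 2 = -(n : ℂ)
      have h6 := th_rel hlt
      have h7 : ((n : ℤ) : ℂ) = 4 * (((s ^ p * 22 : ℕ) : ℤ) : ℂ) - ((tr x : ℤ) : ℂ) ^ 2 := by
        rw [← hn]; push_cast; ring
      rw [Int.cast_natCast] at h7
      rw [h7]
      linear_combination 4 * h6
  · apply sylow_cyclic hp C (v := 1) (by rw [hC, pow_one]) hx4 (Multiplicative (ZMod p))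
      inferInstance
    rw [Nat.card_congr Multiplicative.toAdd, Nat.card_zmod, pow_one]

end Pool.Agent.H93.CL
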