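import Pool.Agent.CycSyl.Iso

/-!
Rotation identity for the set of all Hurwitz integers of given norm with a condition on the
trace.
-/

set_option autoImplicit false

namespace Pool.Agent.H93.CL

open Pool.Agent.CycSyl Pool.Agent.CycSyl.Hz Finset

theorem finite_Z (n : ℕ) : {x : Hz ℤ | nrm x = n}.Finite := by
  let B : ℤ := 4 * n + 4
  apply Set.Finite.subset (s := (fun p : ℤ × ℤ × ℤ × ℤ => (⟨p.1, p.2.1, p.2.2.1, p.2.2.2⟩ : Hz ℤ)) ''
    (Set.Icc (-B) B ×ˢ Set.Icc (-B) B ×ˢ Set.Icc (-B) B ×ˢ Set.Icc (-B) B))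
  · apply Set.Finite.image
    exact (Set.finite_Icc _ _).prod ((Set.finite_Icc _ _).prod ((Set.finite_Icc _ _).prod
      (Set.finite_Icc _ _)))
  · intro x hx
    have hx : nrm x = n := hx
    refine ⟨(x.a, x.b, x.c, x.d), ?_, rfl⟩
    have h4 := four_nrm x
    rw [hx] at h4
    have hn : (0 : ℤ) ≤ n := by positivity
    have h0 := sq_nonneg (2 * x.a + x.d)
    have h1 := sq_nonneg (2 * x.b + x.d)
    have h2 := sq_nonneg (2 * x.c + x.d)
    have h3 := sq_nonneg x.d
    have hb : (4 : ℤ) * n ≤ (2 * n + 1) ^ 2 := by nlinarith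
    have e0 := abs_le_of_sq (z := 2 * x.a + x.d) (n := 2 * n + 1) (by linarith) (by linarith)
    have e1 := abs_le_of_sq (z := 2 * x.b + x.d) (n := 2 * n + 1) (by linarith) (by linarith)
    have e2 := abs_le_of_sq (z := 2 * x.c + x.d) (n := 2 * n + 1) (by linarith) (by linarith)
    have e3 := abs_le_of_sq (z := x.d) (n := 2 * n + 1) (by linarith) (by linarith)
    simp only [Set.mem_prod, Set.mem_Icc, B]
    omega

/-- all Hurwitz integers of norm `n` -/
noncomputable def Z (n : ℕ) : Finset (Hz ℤ) := (finite_Z n).toFinset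

theorem mem_Z {n : ℕ} {x : Hz ℤ} : x ∈ Z n ↔ nrm x = n := by
  simp [Z]

open Classical in
/-- the number of Hurwitz integers of norm `n` with the property `P` -/
noncomputable def C (P : Hz ℤ → Prop) (n : ℕ) : ℤ := (((Z n).filter P).card : ℤ)

theorem C_def (P : Hz ℤ → Prop) [DecidablePred P] (n : ℕ) :
    C P n = (((Z n).filter P).card : ℤ) := by
  unfold C
  congr!

theorem C_congr {P Q : Hz ℤ → Prop} {n : ℕ} (h : ∀ x ∈ Z n, (P x ↔ Q x)) : C P n = C Q n := by
  classical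
  rw [C_def, C_def, Finset.filter_congr h]

theorem C_zero {P : Hz ℤ → Prop} {n : ℕ} (h : ∀ x ∈ Z n, ¬ P x) : C P n = 0 := by
  classical
  rw [C_def, Finset.filter_false_of_mem h, Finset.card_empty, Nat.cast_zero]

theorem C_split (P Q : Hz ℤ → Prop) (n : ℕ) :
    C P n = C (fun x => P x ∧ Q x) n + C (fun x => P x ∧ ¬ Q x) n := by
  classical
  rw [C_def, C_def, C_def, ← Finset.card_filter_add_card_filter_not (s := (Z n).filter P) Q,
    Finset.filter_filter, Finset.filter_filter]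
  push_cast
  rfl

section

variable {s : ℕ} {P : Hz ℤ → Prop}

/-- scaling -/
theorem C_scale (hs0 : s ≠ 0) {n : ℕ} (hP : PInv s P) :
    C (fun x => P x ∧ sc (s : ℤ) ∣ x) (s * (s * n)) = C P n := by
  classical
  have hsz : (s : ℤ) ≠ 0 := by exact_mod_cast hs0
  rw [C_def, C_def, Nat.cast_inj]
  symm
  apply Finset.card_nbij (fun z => sc (s : ℤ) * z)
  · intro z hz
    simp only [Finset.coe_filter, Set.mem_ofPred_eq, Finset.mem_filter, mem_Z] at hz ⊢
    obtain ⟨h1, h2⟩ := hz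
    refine ⟨?_, ?_, ?_⟩
    · rw [nrm_mul, nrm_sc, h1]; push_cast; ring
    · rw [hP.sc]; exact h2
    · exact ⟨z, rfl⟩
  · intro z _ z' _ h
    exact sc_inj_mul hsz h
  · intro x hx
    simp only [Finset.coe_filter, Set.mem_ofPred_eq, mem_Z] at hx
    obtain ⟨h1, h2, z, hz⟩ := hx
    refine ⟨z, ?_, hz.symm⟩
    simp only [Finset.coe_filter, Set.mem_ofPred_eq, mem_Z]
    refine ⟨?_, ?_⟩
    · have h7 : nrm x = s ^ 2 * nrm z := by rw [hz, nrm_mul, nrm_sc]
      have h8 : (s : ℤ) ^ 2 * nrm z = s ^ 2 * n := by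
        rw [← h7, h1]; push_cast; ring
      exact mul_left_cancel₀ (pow_ne_zero 2 hsz) h8
    · rw [← hP.sc, ← hz]; exact h2

open Classical in
/-- rotation -/
theorem C_rot (hs : s.Prime) (hs22 : s.Coprime 22) {n : ℕ} (hP : PInv s P) :
    C (fun x => (P x ∧ (s : ℤ) ∣ tr x) ∧ ¬ sc (s : ℤ) ∣ x) (s * (s * n)) =
      ∑ z ∈ (Z n).filter P,
        (((X s).filter (fun y => ¬ sc (s : ℤ) ∣ conj y * z * y)).card : ℤ) := by
  have h11 := ne11_of hs22
  have hs0 : (s : ℤ) ≠ 0 := by exact_mod_cast hs.ne_zero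
  have step1 : C (fun x => (P x ∧ (s : ℤ) ∣ tr x) ∧ ¬ sc (s : ℤ) ∣ x) (s * (s * n)) =
      ∑ y ∈ X s, ((((Z (s * (s * n))).filter
        (fun x => (P x ∧ (s : ℤ) ∣ tr x) ∧ ¬ sc (s : ℤ) ∣ x)).filter (fun x => LM x y)).card : ℤ) := by
    rw [C_def, ← Nat.cast_sum, Nat.cast_inj]
    simp only [Finset.card_eq_sum_ones, Finset.sum_filter (p := fun x => LM x _)]
    rw [Finset.sum_comm]
    apply Finset.sum_congr rfl
    intro x hx
    simp only [Finset.mem_filter, mem_Z] at hx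
    rw [← Finset.sum_filter, ← Finset.card_eq_sum_ones, card_LM hs h11, if_neg hx.2.2]
    rw [hx.1]; push_cast; exact dvd_mul_right _ _
  have step2 : ∀ y ∈ X s, ((((Z (s * (s * n))).filter
        (fun x => (P x ∧ (s : ℤ) ∣ tr x) ∧ ¬ sc (s : ℤ) ∣ x)).filter (fun x => LM x y)).card : ℤ) =
      ((((Z n).filter P).filter (fun z => ¬ sc (s : ℤ) ∣ conj y * z * y)).card : ℤ) := by
    intro y hy
    have hy' := mem_X.1 hy
    have hy0 : y ≠ 0 := by
      rintro rfl; rw [nrm_zero] at hy'; exact hs0 hy'.2.symm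
    have hcy0 : conj y ≠ 0 := by
      intro h; rw [← nrm_eq_zero, nrm_conj, hy'.2] at h; exact hs0 h
    rw [Nat.cast_inj]
    symm
    apply Finset.card_nbij (fun z => conj y * z * y)
    · intro z hz
      simp only [Finset.coe_filter, Set.mem_ofPred_eq, Finset.mem_filter, mem_Z] at hz ⊢
      obtain ⟨⟨hz3, hzP⟩, hzd⟩ := hz
      refine ⟨⟨?_, ⟨?_, ?_⟩, ?_⟩, conj y * z, rfl⟩
      · rw [nrm_mul, nrm_mul, nrm_conj, hz3, hy'.2]
        push_cast
        ring
      · rw [hP.conj _ _ hy'.2]; exact hzP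
      · rw [tr_conj_mul_mul, hy'.2]
        exact dvd_mul_right _ _
      · exact hzd
    · intro z _ z' _ h
      have h2 := mul_right_cancel₀ hy0 h
      exact mul_left_cancel₀ hcy0 h2
    · intro x hx
      simp only [Finset.coe_filter, Set.mem_ofPred_eq, Finset.mem_filter, mem_Z] at hx
      obtain ⟨⟨hx3, ⟨hxP, hxt⟩, hxd⟩, hxL⟩ := hx
      have hxn : (s : ℤ) ∣ nrm x := by rw [hx3]; push_cast; exact dvd_mul_right _ _
      obtain ⟨v, hv⟩ := key_left hs h11 hxn hxd hxt hy'.1 hy'.2 hxL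
      have hvd : ¬ sc (s : ℤ) ∣ v := fun h => hxd (by rw [hv]; exact sc_dvd_mul_left _ h)
      have hvn : nrm v = s * n := by
        have h1 : (s : ℤ) * nrm v = s * (s * n) := by
          rw [← hy'.2, ← nrm_conj y, ← nrm_mul, ← hv, hx3, nrm_conj, hy'.2]; push_cast; ring
        exact mul_left_cancel₀ hs0 h1
      obtain ⟨y', ⟨⟨hy'1, hy'2⟩, z, hz⟩, _⟩ :=
        existsUnique_right hs h11 (u := v) (by rw [hvn]; exact dvd_mul_right _ _) hvd
      have hyy : y' = y := (existsUnique_right hs h11 hxn hxd).unique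
        ⟨⟨hy'1, hy'2⟩, conj y * z, by rw [hv, hz, mul_assoc]⟩ ⟨hy', hxL⟩
      rw [hyy] at hz
      have hxz : x = conj y * z * y := by rw [hv, hz, mul_assoc]
      refine ⟨z, ?_, hxz.symm⟩
      simp only [Finset.coe_filter, Set.mem_ofPred_eq, Finset.mem_filter, mem_Z]
      refine ⟨⟨?_, ?_⟩, ?_⟩
      · have h7 : nrm z * s = n * s := by
          rw [← hy'.2, ← nrm_mul, ← hz, hvn, hy'.2]; ring
        exact mul_right_cancel₀ hs0 h7
      · rw [← hP.conj z y hy'.2, ← hxz]; exact hxP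
      · rw [← hxz]; exact hxd
  rw [step1, Finset.sum_congr rfl step2]
  rw [← Nat.cast_sum, ← Nat.cast_sum, Nat.cast_inj]
  simp only [Finset.card_eq_sum_ones]
  simp only [Finset.sum_filter]
  rw [Finset.sum_comm]
  apply Finset.sum_congr rfl
  intro z _
  by_cases h : P z
  · simp only [h, if_true]
  · simp only [h, if_false, Finset.sum_const_zero]

/-- the rotation identity -/
theorem C_rot2 (hs : s.Prime) (hs22 : s.Coprime 22) {n : ℕ} (hsn : s ∣ n) (hP : PInv s P) :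
    C (fun x => P x ∧ (s : ℤ) ∣ tr x) (s * (s * n)) =
      s * C P n + C (fun x => P x ∧ (s : ℤ) ∣ tr x) n
       - s * C (fun x => P x ∧ sc (s : ℤ) ∣ x) n := by
  classical
  have hcX : (((X s).card : ℕ) : ℤ) = s + 1 := by rw [card_X hs hs22]; push_cast; rfl
  rw [C_split (fun x => P x ∧ (s : ℤ) ∣ tr x) (fun x => sc (s : ℤ) ∣ x), C_rot hs hs22 hP]
  have e1 : C (fun x => (P x ∧ (s : ℤ) ∣ tr x) ∧ sc (s : ℤ) ∣ x) (s * (s * n)) = C P n := by
    rw [← C_scale hs.ne_zero (n := n) hP]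
    apply C_congr
    intro x _
    constructor
    · rintro ⟨⟨h1, _⟩, h2⟩; exact ⟨h1, h2⟩
    · rintro ⟨h1, h2⟩; exact ⟨⟨h1, sc_dvd_tr h2⟩, h2⟩
  rw [e1]
  have e2 : ∑ z ∈ (Z n).filter P,
        (((X s).filter (fun y => ¬ sc (s : ℤ) ∣ conj y * z * y)).card : ℤ) =
      ∑ z ∈ (Z n).filter P, (((s : ℤ) - 1)
        + (if (s : ℤ) ∣ tr z then 1 else 0)
        - (if sc (s : ℤ) ∣ z then (s : ℤ) else 0)) := by
    apply Finset.sum_congr rfl
    intro z hz
    simp only [Finset.mem_filter, mem_Z] at hz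
    have hcn := card_not (R := ℤ) (s := s) z
    rw [hcX] at hcn
    rw [hcn]
    have hzn : (s : ℤ) ∣ nrm z := by rw [hz.1]; exact_mod_cast hsn
    by_cases h : sc (s : ℤ) ∣ z
    · have h1 : (X s).filter (fun y => sc (s : ℤ) ∣ conj y * z * y) = X s := by
        rw [Finset.filter_eq_self]
        intro y _
        exact sc_dvd_mul_right _ (sc_dvd_mul_left _ h)
      rw [h1, if_pos (sc_dvd_tr h), if_pos h, hcX]
      ring
    · rw [card_e hs hs22 hzn h, if_neg h]
      split_ifs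
      · push_cast; ring
      · push_cast; ring
  rw [e2, C_def, C_def, C_def]
  simp only [Finset.sum_sub_distrib, Finset.sum_add_distrib]
  rw [← Finset.sum_filter, ← Finset.sum_filter, Finset.filter_filter, Finset.filter_filter]
  simp only [Finset.sum_const, nsmul_eq_mul]
  ring

/-- V-identity: odd powers of `s`. -/
theorem C_V (hs : s.Prime) (hs22 : s.Coprime 22) {m : ℕ} (hsm : ¬ s ∣ m) (hP : PInv s P)
    (j : ℕ) :
    C P (s ^ (2 * j + 3) * m) - s * C P (s ^ (2 * j + 1) * m) =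
      C (fun x => P x ∧ ¬ (s : ℤ) ∣ tr x) (s ^ (2 * j + 3) * m) +
      C (fun x => P x ∧ (s : ℤ) ∣ tr x) (s * m) := by
  have key : ∀ j, C (fun x => P x ∧ (s : ℤ) ∣ tr x) (s ^ (2 * j + 3) * m) -
      s * C P (s ^ (2 * j + 1) * m) =
      C (fun x => P x ∧ (s : ℤ) ∣ tr x) (s * m) := by
    intro j
    induction j with
    | zero =>
      have h1 := C_rot2 hs hs22 (dvd_mul_right s m) hP
      have h2 : C (fun x => P x ∧ sc (s : ℤ) ∣ x) (s * m) = 0 := by
        apply C_zero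
        rintro x hx ⟨_, h⟩
        apply hsm
        have h1 := sc_dvd_nrm h
        rw [mem_Z.1 hx, sq] at h1
        have h2 : s * s ∣ s * m := by exact_mod_cast h1
        exact Nat.dvd_of_mul_dvd_mul_left hs.pos h2
      have e1 : s ^ (2 * 0 + 3) * m = s * (s * (s * m)) := by ring
      have e2 : s ^ (2 * 0 + 1) * m = s * m := by ring
      rw [e1, e2, h1, h2]; ring
    | succ j ih =>
      have h1 := C_rot2 hs hs22 (n := s ^ (2 * j + 3) * m)
        (Dvd.dvd.mul_right (dvd_pow_self s (by omega)) m) hP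
      have h2 := C_scale hs.ne_zero (n := s ^ (2 * j + 1) * m) hP
      have e1 : s ^ (2 * (j + 1) + 3) * m = s * (s * (s ^ (2 * j + 3) * m)) := by ring
      have e2 : s ^ (2 * (j + 1) + 1) * m = s ^ (2 * j + 3) * m := by ring
      have e3 : s * (s * (s ^ (2 * j + 1) * m)) = s ^ (2 * j + 3) * m := by ring
      rw [e3] at h2
      rw [e1, e2, h1, h2, ← ih]; ring
  rw [C_split P (fun x => (s : ℤ) ∣ tr x) (s ^ (2 * j + 3) * m), ← key j]
  ring

end

end Pool.Agent.H93.CL
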