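import Pool.Agent.H93.CL.Cnt
import Pool.Agent.CycSyl.Total

/-!
The number of Hurwitz integers of norm `22 s ^ p` with trace divisible by `11`, prime to `s`.
-/

set_option autoImplicit false

namespace Pool.Agent.H93.CL

open Pool.Agent.CycSyl Pool.Agent.CycSyl.Hz Finset

/-- the trivial weight -/
def triv : Wt ℤ where
  g _ := 1
  mul _ _ _ _ := by norm_num
  neg _ _ := rfl
  conj _ _ := by norm_num
  int _ _ := rfl

theorem T_triv (n : ℕ) : T triv (fun _ => True) n = ((X n).card : ℤ) := by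
  classical
  rw [T_def, Finset.filter_true]
  show ∑ _x ∈ X n, (1 : ℤ) = _
  rw [Finset.sum_const, nsmul_eq_mul, mul_one]

theorem Vs_add_one (r : ℤ) (n : ℕ) : Vs (r + 1) r n = r ^ n + 1 := by
  induction n using Nat.twoStepInduction with
  | zero => rw [Vs_zero]; norm_num
  | one => rw [Vs_one]; ring
  | more n ih1 ih2 => rw [Vs_add_two, ih1, ih2]; ring

theorem card_X_rec {s : ℕ} (hs : s.Prime) (hs22 : s.Coprime 22) (k : ℕ) :
    ((X (s ^ (k + 2))).card : ℤ) - s * ((X (s ^ k)).card : ℤ) = (s : ℤ) ^ (k + 2) + 1 := by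
  have h := hecke_V triv hs hs22 (Nat.coprime_one_left 22) (by
    intro h; exact hs.one_lt.ne' (Nat.dvd_one.1 h)) k
  rw [T_one triv _ trivial, mul_one, mul_one, mul_one, T_triv, T_triv, T_triv, card_X hs hs22] at h
  simp only [Int.cast_natCast, Int.cast_id] at h
  rw [h, Nat.cast_add, Nat.cast_one, Vs_add_one]

theorem tr_sq_le (x : Hz ℤ) : tr x ^ 2 ≤ 4 * nrm x := by
  have h4 := four_nrm x
  unfold tr
  nlinarith [sq_nonneg (2 * x.b + x.d), sq_nonneg (2 * x.c + x.d), sq_nonneg x.d]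

theorem two_dvd_tr {x : Hz ℤ} (h : (2 : ℤ) ∣ nrm x) : (2 : ℤ) ∣ tr x := by
  have := (parity h).1
  unfold tr
  omega

/-- the main count -/
theorem count {s : ℕ} (hs : s = 3 ∨ s = 5) (j : ℕ) :
    C (fun x => (11 : ℤ) ∣ tr x ∧ ¬ (s : ℤ) ∣ tr x) (s ^ (2 * j + 3) * 22) =
      24 * ((s : ℤ) ^ (2 * j + 3) - s) := by
  have hsp : s.Prime := by rcases hs with rfl | rfl <;> norm_num
  have hs22 : s.Coprime 22 := by rcases hs with rfl | rfl <;> decide
  have hs11 : s.Coprime 11 := by rcases hs with rfl | rfl <;> decide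
  have hnd : ¬ s ∣ 22 := by rcases hs with rfl | rfl <;> decide
  have hn11 : ∀ k, ¬ 11 ∣ s ^ k := by
    intro k h
    have h1 := (Nat.Prime.dvd_of_dvd_pow (by norm_num) h)
    rcases hs with rfl | rfl <;> revert h1 <;> decide
  have hP : PInv s (fun x => (11 : ℤ) ∣ tr x) := by
    have := PInv_dvd (q := 11) hs11
    simpa using this
  have h1 := C_V hsp hs22 hnd hP j
  have h2 : C (fun x => (11 : ℤ) ∣ tr x ∧ (s : ℤ) ∣ tr x) (s * 22) =
      C (fun x => (11 : ℤ) ∣ tr x) (s * 22) := by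
    apply C_congr
    intro x hx
    rw [mem_Z] at hx
    constructor
    · exact fun h => h.1
    · intro h
      refine ⟨h, ?_⟩
      have h3 : (2 : ℤ) ∣ tr x := two_dvd_tr (by rw [hx]; push_cast; exact ⟨s * 11, by ring⟩)
      have h4 := tr_sq_le x
      rw [hx] at h4
      have hs5 : (s : ℤ) ≤ 5 := by rcases hs with rfl | rfl <;> norm_num
      push_cast at h4
      have h5 : tr x = 0 := by
        obtain ⟨k, hk⟩ : (22 : ℤ) ∣ tr x := by omega
        rw [hk] at h4 ⊢
        have h6 : k ^ 2 < 1 := by nlinarith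
        have h7 : k = 0 := by
          have : k ^ 2 = 0 := by
            have := sq_nonneg k
            omega
          exact pow_eq_zero_iff (two_ne_zero) |>.1 this
        rw [h7]; norm_num
      rw [h5]; exact dvd_zero _
  have c1 := C_eq (hn11 (2 * j + 3))
  have c2 := C_eq (hn11 (2 * j + 1))
  have c3 := C_eq (hn11 1)
  rw [pow_one, card_X hsp hs22] at c3
  rw [mul_comm 22 _] at c1 c2 c3
  have r := card_X_rec hsp hs22 (2 * j + 1)
  have e : 2 * j + 1 + 2 = 2 * j + 3 := by ring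
  rw [e] at r
  rw [h2, c1, c2, c3] at h1
  push_cast at h1
  linear_combination -h1 + 24 * r

end Pool.Agent.H93.CL
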